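import Mathlib

/-!
# First Betti numbers of finite index subgroups and harmonic functions

`H` a finite index subgroup of `G`, `S` a finite symmetric generating set of `G`.  The homomorphisms
`H → ℝ` are the restrictions to `H` of harmonic functions `F` on `G` with `F (h g) = F h + F g`.
The differentials of these functions form a space of functions on `(G ⧸ H) × S`, and its dimension
is at most the sum of pointwise bounds (trace of the reproducing kernel).
-/

set_option autoImplicit false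

open Module

namespace Pool.Agent.Q103.BG

/-- the trace bound -/
theorem trace_bound {ι : Type*} [Fintype ι] (Ω : Submodule ℝ (EuclideanSpace ℝ ι)) (K : ι → ℝ)
    (hK : ∀ i, 0 ≤ K i)
    (h : ∀ ω ∈ Ω, ∀ i, ω i ^ 2 ≤ K i * ‖ω‖ ^ 2) : (finrank ℝ Ω : ℝ) ≤ ∑ i, K i := by
  classical
  set b := stdOrthonormalBasis ℝ Ω with hb
  have key : ∀ i, ∑ j, ((b j : EuclideanSpace ℝ ι) i) ^ 2 ≤ K i := by
    intro i
    set T : ℝ := ∑ j, ((b j : EuclideanSpace ℝ ι) i) ^ 2 with hT
    have hT0 : 0 ≤ T := Finset.sum_nonneg fun _ _ => sq_nonneg _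
    set u : Ω := ∑ j, ((b j : EuclideanSpace ℝ ι) i) • b j with hu
    have hu1 : (u : EuclideanSpace ℝ ι) i = T := by
      rw [hu, hT]
      simp only [AddSubmonoidClass.coe_finsetSum, Submodule.coe_smul, WithLp.ofLp_sum,
        Finset.sum_apply, WithLp.ofLp_smul, Pi.smul_apply, smul_eq_mul]
      exact Finset.sum_congr rfl fun j _ => (sq _).symm
    have hu2 : ‖(u : EuclideanSpace ℝ ι)‖ ^ 2 = T := by
      have h1 : ‖u‖ ^ 2 = ∑ j, ‖inner ℝ (b j) u‖ ^ 2 := (b.sum_sq_norm_inner_right u).symm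
      have h2 : ∀ j, inner ℝ (b j) u = (b j : EuclideanSpace ℝ ι) i := by
        intro j
        have h3 := b.orthonormal.inner_right_fintype (fun j => (b j : EuclideanSpace ℝ ι) i) j
        exact h3
      rw [← Submodule.coe_norm, h1, hT]
      refine Finset.sum_congr rfl fun j _ => ?_
      rw [h2, Real.norm_eq_abs, sq_abs]
    have h3 := h u u.2 i
    rw [hu1, hu2] at h3
    rcases hT0.lt_or_eq with hpos | hzero
    · by_contra hlt
      push Not at hlt
      nlinarith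
    · rw [← hzero]; exact hK i
  have h1 : (finrank ℝ Ω : ℝ) = ∑ j, ∑ i, ((b j : EuclideanSpace ℝ ι) i) ^ 2 := by
    have h2 : ∀ j, ∑ i, ((b j : EuclideanSpace ℝ ι) i) ^ 2 = 1 := by
      intro j
      have h3 : ‖(b j : EuclideanSpace ℝ ι)‖ ^ 2 = 1 := by
        rw [← Submodule.coe_norm, b.orthonormal.1 j, one_pow]
      rw [EuclideanSpace.norm_sq_eq] at h3
      rw [← h3]
      exact Finset.sum_congr rfl fun i _ => by rw [Real.norm_eq_abs, sq_abs]
    simp only [h2]
    simp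
  rw [h1, Finset.sum_comm]
  exact Finset.sum_le_sum fun i _ => key i

variable {G : Type*} [Group G] (H : Subgroup G) (S : Finset G)

/-- harmonic functions on `G` with `F (h g) = F h + F g` -/
def HW : Submodule ℝ (G → ℝ) where
  carrier := {F | (∀ g, ∑ s ∈ S, (F (g * s) - F g) = 0) ∧ ∀ h ∈ H, ∀ g, F (h * g) = F h + F g}
  add_mem' := by
    rintro F F' ⟨h1, h2⟩ ⟨h1', h2'⟩
    refine ⟨fun g => ?_, fun h hh g => ?_⟩
    · have := h1 g
      have := h1' g
      simp only [Pi.add_apply]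
      have e : ∑ s ∈ S, (F (g * s) + F' (g * s) - (F g + F' g)) =
          ∑ s ∈ S, (F (g * s) - F g) + ∑ s ∈ S, (F' (g * s) - F' g) := by
        rw [← Finset.sum_add_distrib]
        exact Finset.sum_congr rfl fun s _ => by ring
      rw [e, h1, h1', add_zero]
    · simp only [Pi.add_apply]
      rw [h2 h hh, h2' h hh]
      ring
  zero_mem' := ⟨fun g => by simp, fun h hh g => by simp⟩
  smul_mem' := by
    rintro c F ⟨h1, h2⟩
    refine ⟨fun g => ?_, fun h hh g => ?_⟩
    · simp only [Pi.smul_apply, smul_eq_mul, ← mul_sub, ← Finset.mul_sum, h1, mul_zero]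
    · simp only [Pi.smul_apply, smul_eq_mul, h2 h hh]
      ring

variable {H S}

theorem HW_one {F : G → ℝ} (hF : F ∈ HW H S) : F 1 = 0 := by
  have := hF.2 1 H.one_mem 1
  rw [mul_one] at this
  linarith

/-- restriction to `H` -/
noncomputable def ev : HW H S →ₗ[ℝ] (Additive H →+ ℝ) where
  toFun F :=
    { toFun := fun h => (F : G → ℝ) (h.toMul : G)
      map_zero' := HW_one F.2
      map_add' := fun a b => F.2.2 _ (a.toMul).2 _ }
  map_add' F F' := by ext; rfl
  map_smul' c F := by ext; rfl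

section

variable (H)

theorem out_mem (g : G) : g * ((g⁻¹ : G) : G ⧸ H).out ∈ H := by
  obtain ⟨h, hh⟩ := QuotientGroup.mk_out_eq_mul H g⁻¹
  rw [hh, mul_inv_cancel_left]
  exact h.2

end

/-- the difference of `F` along `g → g s` depends only on `H g` -/
theorem diff_out {F : G → ℝ} (φ : G → ℝ) (hF : ∀ h ∈ H, ∀ g, F (h * g) = φ h + F g) (g s : G) :
    F (((g⁻¹ : G) : G ⧸ H).out⁻¹ * s) - F (((g⁻¹ : G) : G ⧸ H).out⁻¹) = F (g * s) - F g := by
  obtain ⟨h, hh⟩ := QuotientGroup.mk_out_eq_mul H g⁻¹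
  rw [hh, mul_inv_rev, inv_inv, mul_assoc, hF _ (H.inv_mem h.2), hF _ (H.inv_mem h.2)]
  ring

/-- the differential -/
noncomputable def dd (F : G → ℝ) : EuclideanSpace ℝ ((G ⧸ H) × S) :=
  WithLp.toLp 2 (fun p => F (p.1.out⁻¹ * p.2) - F (p.1.out⁻¹))

theorem dd_apply (F : G → ℝ) (p : (G ⧸ H) × S) :
    (dd F : EuclideanSpace ℝ ((G ⧸ H) × S)) p = F (p.1.out⁻¹ * p.2) - F (p.1.out⁻¹) := rfl

/-- the differential as a linear map -/
noncomputable def ddl : HW H S →ₗ[ℝ] EuclideanSpace ℝ ((G ⧸ H) × S) where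
  toFun F := dd (F : G → ℝ)
  map_add' F F' := by
    ext p
    simp only [Submodule.coe_add, dd_apply, PiLp.add_apply, Pi.add_apply]
    ring
  map_smul' c F := by
    ext p
    simp only [Submodule.coe_smul, dd_apply, PiLp.smul_apply, Pi.smul_apply, smul_eq_mul,
      RingHom.id_apply]
    ring

/-- differential of a function on `G ⧸ H` -/
noncomputable def du : ((G ⧸ H) → ℝ) →ₗ[ℝ] EuclideanSpace ℝ ((G ⧸ H) × S) where
  toFun U := WithLp.toLp 2 (fun p => U ((p.2 : G)⁻¹ • p.1) - U p.1)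
  map_add' F F' := by
    ext p
    simp only [PiLp.add_apply, Pi.add_apply]
    ring
  map_smul' c F := by
    ext p
    simp only [PiLp.smul_apply, Pi.smul_apply, smul_eq_mul, RingHom.id_apply]
    ring

theorem du_apply (U : (G ⧸ H) → ℝ) (p : (G ⧸ H) × S) :
    (du U : EuclideanSpace ℝ ((G ⧸ H) × S)) p = U ((p.2 : G)⁻¹ • p.1) - U p.1 := rfl

theorem ddl_inj (hgen : Subgroup.closure (S : Set G) = ⊤) :
    Function.Injective (ddl (H := H) (S := S)) := by
  rw [← LinearMap.ker_eq_bot, LinearMap.ker_eq_bot']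
  intro F hF
  have h1 : ∀ g, ∀ s ∈ S, (F : G → ℝ) (g * s) = (F : G → ℝ) g := by
    intro g s hs
    have h2 : (dd (F : G → ℝ) : EuclideanSpace ℝ ((G ⧸ H) × S)) (((g⁻¹ : G) : G ⧸ H), ⟨s, hs⟩) =
      0 := by
      have : dd (F : G → ℝ) = (0 : EuclideanSpace ℝ ((G ⧸ H) × S)) := hF
      rw [this]; rfl
    rw [dd_apply, diff_out (F : G → ℝ) F.2.2] at h2
    linarith
  have h2 : ∀ k : G, ∀ g, (F : G → ℝ) (g * k) = (F : G → ℝ) g := by
    intro k
    have hk : k ∈ Subgroup.closure (S : Set G) := by rw [hgen]; trivial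
    induction hk using Subgroup.closure_induction with
    | mem s hs => exact fun g => h1 g s (Finset.mem_coe.1 hs)
    | one => intro g; rw [mul_one]
    | mul x y _ _ hx hy => intro g; rw [← mul_assoc, hy, hx]
    | inv x _ hx => intro g; rw [← hx (g * x⁻¹), inv_mul_cancel_right]
  ext g
  have h3 := h2 g 1
  rw [one_mul, HW_one F.2] at h3
  exact h3

variable [H.FiniteIndex]

theorem ev_surj (hS : ∀ s ∈ S, s⁻¹ ∈ S) : Function.Surjective (ev (H := H) (S := S)) := by
  classical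
  have _ : Fintype (G ⧸ H) := H.fintypeQuotientOfFiniteIndex
  intro φ
  have hmk : ∀ h ∈ H, ∀ g : G, (((h * g)⁻¹ : G) : G ⧸ H) = ((g⁻¹ : G) : G ⧸ H) := by
    intro h hh g
    rw [QuotientGroup.eq, inv_inv, mul_inv_cancel_right]
    exact hh
  set F₀ : G → ℝ := fun g => φ (Additive.ofMul ⟨_, out_mem H g⟩) with hF₀
  have hF : ∀ h (hh : h ∈ H) (g : G), F₀ (h * g) = φ (Additive.ofMul ⟨h, hh⟩) + F₀ g := by
    intro h hh g
    rw [hF₀]
    simp only
    rw [← map_add, ← ofMul_mul]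
    congr 2
    apply Subtype.ext
    show h * g * (((h * g)⁻¹ : G) : G ⧸ H).out = h * (g * ((g⁻¹ : G) : G ⧸ H).out)
    rw [hmk h hh g, mul_assoc]
  set φ' : G → ℝ := fun g => if hh : g ∈ H then φ (Additive.ofMul ⟨g, hh⟩) else 0 with hφ'
  have hφ : ∀ h (hh : h ∈ H), φ' h = φ (Additive.ofMul ⟨h, hh⟩) := by
    intro h hh
    rw [hφ']
    simp only [dif_pos hh]
  have hF' : ∀ h ∈ H, ∀ g, F₀ (h * g) = φ' h + F₀ g := by
    intro h hh g
    rw [hF h hh, hφ h hh]
  obtain ⟨y, ⟨U, rfl⟩, z, hz, he⟩ := Submodule.exists_add_mem_mem_orthogonal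
    (K := LinearMap.range (du (H := H) (S := S))) (dd F₀ : EuclideanSpace ℝ ((G ⧸ H) × S))
  set F₁ : G → ℝ := fun g => F₀ g - U ((g⁻¹ : G) : G ⧸ H) with hF₁
  have hF₁' : ∀ h ∈ H, ∀ g, F₁ (h * g) = φ' h + F₁ g := by
    intro h hh g
    simp only [hF₁]
    rw [hF' h hh, hmk h hh]
    ring
  have hz' : z = dd F₁ := by
    have : z = dd F₀ - du U := by rw [he]; abel
    rw [this]
    ext p
    rw [PiLp.sub_apply, dd_apply, dd_apply, du_apply]
    simp only [hF₁]
    have e1 : (((p.1.out⁻¹ * (p.2 : G))⁻¹ : G) : G ⧸ H) = (p.2 : G)⁻¹ • p.1 := by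
      rw [mul_inv_rev, inv_inv]
      conv_rhs => rw [← QuotientGroup.out_eq' p.1]
      rfl
    have e2 : (((p.1.out⁻¹)⁻¹ : G) : G ⧸ H) = p.1 := by
      rw [inv_inv]
      exact QuotientGroup.out_eq' p.1
    rw [e1, e2]
    ring
  -- harmonicity
  have harm : ∀ g, ∑ s ∈ S, (F₁ (g * s) - F₁ g) = 0 := by
    intro g
    set v₀ : G ⧸ H := ((g⁻¹ : G) : G ⧸ H) with hv₀
    have h1 := hz (du (Pi.single v₀ 1)) ⟨_, rfl⟩
    have h2 : inner ℝ (du (Pi.single v₀ 1) : EuclideanSpace ℝ ((G ⧸ H) × S)) z =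
        ∑ s : S, ∑ v : G ⧸ H, (Pi.single (M := fun _ => ℝ) v₀ 1 ((s : G)⁻¹ • v) -
          Pi.single (M := fun _ => ℝ) v₀ 1 v) * z (v, s) := by
      rw [PiLp.inner_apply, Fintype.sum_prod_type, Finset.sum_comm]
      refine Finset.sum_congr rfl fun s _ => Finset.sum_congr rfl fun v _ => ?_
      rw [du_apply]
      simp only [RCLike.inner_apply, conj_trivial]
      ring
    rw [h2] at h1
    have h3 : ∀ s : S, ∑ v : G ⧸ H, (Pi.single (M := fun _ => ℝ) v₀ 1 ((s : G)⁻¹ • v) -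
          Pi.single (M := fun _ => ℝ) v₀ 1 v) * z (v, s) =
          z ((s : G) • v₀, s) - z (v₀, s) := by
      intro s
      simp only [sub_mul, Finset.sum_sub_distrib]
      congr 1
      · rw [Finset.sum_eq_single ((s : G) • v₀)]
        · simp
        · intro v _ hv
          rw [Pi.single_eq_of_ne, zero_mul]
          intro hc
          exact hv (by rw [← hc, smul_inv_smul])
        · intro hc; exact absurd (Finset.mem_univ _) hc
      · rw [Finset.sum_eq_single v₀]
        · simp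
        · intro v _ hv
          rw [Pi.single_eq_of_ne hv, zero_mul]
        · intro hc; exact absurd (Finset.mem_univ _) hc
    simp only [h3] at h1
    have h4 : ∀ s : S, z (v₀, s) = F₁ (g * s) - F₁ g := by
      intro s
      rw [hz', dd_apply]
      exact diff_out φ' hF₁' g s
    have h5 : ∀ s : S, z ((s : G) • v₀, s) = F₁ g - F₁ (g * (s : G)⁻¹) := by
      intro s
      have e : (s : G) • v₀ = (((g * (s : G)⁻¹)⁻¹ : G) : G ⧸ H) := by
        rw [mul_inv_rev, inv_inv]; rfl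
      rw [hz', dd_apply, e]
      have := diff_out φ' hF₁' (g * (s : G)⁻¹) s
      rw [inv_mul_cancel_right] at this
      exact this
    simp only [h4, h5] at h1
    rw [Finset.sum_coe_sort S (fun s => F₁ g - F₁ (g * s⁻¹) - (F₁ (g * s) - F₁ g))] at h1
    have h6 : ∑ s ∈ S, (F₁ (g * s⁻¹) - F₁ g) = ∑ s ∈ S, (F₁ (g * s) - F₁ g) := by
      refine Finset.sum_nbij' (fun s => s⁻¹) (fun s => s⁻¹) hS hS (fun s _ => inv_inv s)
        (fun s _ => inv_inv s) (fun s _ => rfl)
    have h7 : ∑ s ∈ S, (F₁ g - F₁ (g * s⁻¹) - (F₁ (g * s) - F₁ g)) =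
        - ∑ s ∈ S, (F₁ (g * s⁻¹) - F₁ g) - ∑ s ∈ S, (F₁ (g * s) - F₁ g) := by
      rw [← Finset.sum_neg_distrib, ← Finset.sum_sub_distrib]
      exact Finset.sum_congr rfl fun s _ => by ring
    rw [h7, h6] at h1
    linarith
  have hmem : (fun g => F₁ g - F₁ 1) ∈ HW H S := by
    refine ⟨fun g => ?_, fun h hh g => ?_⟩
    · have := harm g
      rw [← this]
      exact Finset.sum_congr rfl fun s _ => by ring
    · have h1 := hF₁' h hh g
      have h2 := hF₁' h hh 1
      rw [mul_one] at h2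
      simp only
      rw [h1, h2]
      ring
  refine ⟨⟨_, hmem⟩, ?_⟩
  refine AddMonoidHom.ext fun h => ?_
  have h2 := hF₁' (h.toMul : G) (h.toMul).2 1
  rw [mul_one, hφ _ (h.toMul).2] at h2
  show F₁ (h.toMul : G) - F₁ 1 = φ h
  rw [h2]
  simp

/-- the bound of `b₁ (H)` by pointwise bounds of the differentials -/
theorem betti_le (hS : ∀ s ∈ S, s⁻¹ ∈ S) (hgen : Subgroup.closure (S : Set G) = ⊤)
    [Fintype (G ⧸ H)] (K : G ⧸ H → ℝ) (hK : ∀ v, 0 ≤ K v)
    (h : ∀ F ∈ HW H S, ∀ v, ∀ s : S, (dd F : EuclideanSpace ℝ ((G ⧸ H) × S)) (v, s) ^ 2 ≤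
      K v * ‖(dd F : EuclideanSpace ℝ ((G ⧸ H) × S))‖ ^ 2) :
    Module.Finite ℝ (Additive H →+ ℝ) ∧
      (finrank ℝ (Additive H →+ ℝ) : ℝ) ≤ S.card * ∑ v, K v := by
  have hfin : Module.Finite ℝ (HW H S) := Module.Finite.of_injective _ (ddl_inj (H := H) hgen)
  refine ⟨Module.Finite.of_surjective _ (ev_surj (H := H) hS), ?_⟩
  have h1 : finrank ℝ (Additive H →+ ℝ) ≤ finrank ℝ (HW H S) := by
    have := LinearMap.finrank_range_le (ev (H := H) (S := S))
    rw [LinearMap.range_eq_top.2 (ev_surj (H := H) hS), finrank_top] at this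
    exact this
  have h2 : finrank ℝ (HW H S) = finrank ℝ (LinearMap.range (ddl (H := H) (S := S))) :=
    (LinearMap.finrank_range_of_inj (ddl_inj (H := H) hgen)).symm
  have h3 := trace_bound (LinearMap.range (ddl (H := H) (S := S))) (fun p => K p.1)
    (fun p => hK p.1) (by
      rintro ω ⟨F, rfl⟩ ⟨v, s⟩
      exact h F.1 F.2 v s)
  rw [← h2] at h3
  have h4 : ((finrank ℝ (Additive H →+ ℝ) : ℕ) : ℝ) ≤ (finrank ℝ (HW H S) : ℕ) := by
    exact_mod_cast h1
  refine h4.trans (h3.trans (le_of_eq ?_))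
  rw [Fintype.sum_prod_type, Finset.mul_sum]
  refine Finset.sum_congr rfl fun v _ => ?_
  simp

end Pool.Agent.Q103.BG
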