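import Pool.Agent.Q103.BG.Main
import Pool.Agent.Q103.SG.Dim

/-!
# First `ℓ²`-Betti numbers of normal coverings

`G` acts geometrically on a proper geodesically complete CAT(0) space without rank one isometries and
`π : G → Q` is surjective with a kernel without short elements.  The space of the `ℓ²`-harmonic
one-cocycles of `G` with values in `ℓ²(Q)` has von Neumann dimension at most `C / log ρ`.
-/

set_option autoImplicit false

universe u v

open Set
open Pool.Agent.TH60.FP Pool.Agent.Y34.HB Pool.Agent.Y34.EL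
open Pool.Agent.Helper386.PD3 Pool.Agent.Q103.SG

namespace Pool.Agent.Q103.BG

/-- a bound of the evaluations bounds the von Neumann dimension -/
theorem vd_le_of_eval {Q : Type} [Group Q] {k : ℕ} (W : Submodule ℝ (VV Q k)) {K : ℝ} (hK : 0 ≤ K)
    (h : ∀ x ∈ W, ∀ i, (x i 1) ^ 2 ≤ K * ‖x‖ ^ 2) : vd W ≤ k * K := by
  have hcl : ∀ x ∈ closure (W : Set (VV Q k)), ∀ i, (x i 1) ^ 2 ≤ K * ‖x‖ ^ 2 := by
    intro x hx i
    have hc : IsClosed {x : VV Q k | (evV i 1 x) ^ 2 ≤ K * ‖x‖ ^ 2} :=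
      isClosed_le ((evV i 1).continuous.pow 2) (continuous_const.mul (continuous_norm.pow 2))
    exact closure_minimal (fun y hy => h y hy i) hc hx
  rw [vd_eq]
  have h1 : ∀ i : Fin k, inner ℝ (prj W (inj i (dl (1 : Q)))) (inj i (dl 1)) ≤ K := by
    intro i
    set p := prj W (inj i (dl (1 : Q))) with hp
    have hpm : p ∈ closure (W : Set (VV Q k)) := prj_mem W _
    have h2 : inner ℝ (inj i (dl (1 : Q)) - p) p = (0 : ℝ) := prj_orth W _ hpm
    rw [inner_sub_left, real_inner_self_eq_norm_sq, real_inner_comm] at h2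
    have h3 := hcl p hpm i
    rw [← inner_e p i] at h3
    have h4 : inner ℝ p (inj i (dl (1 : Q))) = ‖p‖ ^ 2 := by linarith
    rw [h4] at h3 ⊢
    by_contra hne
    push Not at hne
    have h5 : 0 < ‖p‖ ^ 2 := lt_of_le_of_lt hK hne
    nlinarith
  calc ∑ i, inner ℝ (prj W (inj i (dl (1 : Q)))) (inj i (dl 1)) ≤ ∑ _i : Fin k, K :=
        Finset.sum_le_sum fun i _ => h1 i
    _ = k * K := by rw [Finset.sum_const, Finset.card_univ, Fintype.card_fin, nsmul_eq_mul]

/-- the space of the `ℓ²`-gradients of harmonic functions on `G` whose gradient is defined on `Q` -/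
def GW {G : Type u} [Group G] {Q : Type} [Group Q] {k : ℕ} (s : Fin k → G) (π : G →* Q) :
    Submodule ℝ (VV Q k) where
  carrier := {ω | ∃ F : G → ℝ, (∀ g i, ω i (π g) = F (g * s i) - F g) ∧
    ∀ g, ∑ i, (F (g * s i) - F g) = 0}
  add_mem' {ω ω'} := by
    rintro ⟨F, h1, h2⟩ ⟨F', h3, h4⟩
    refine ⟨fun g => F g + F' g, fun g i => ?_, fun g => ?_⟩
    · change ω i (π g) + ω' i (π g) = _
      rw [h1, h3]
      ring
    · have : ∑ i, (F (g * s i) + F' (g * s i) - (F g + F' g)) =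
          ∑ i, (F (g * s i) - F g) + ∑ i, (F' (g * s i) - F' g) := by
        rw [← Finset.sum_add_distrib]
        exact Finset.sum_congr rfl fun i _ => by ring
      rw [this, h2, h4, add_zero]
  zero_mem' := ⟨fun _ => 0, fun g i => by
    change (0 : ℝ) = _
    ring, fun g => by simp⟩
  smul_mem' c ω := by
    rintro ⟨F, h1, h2⟩
    refine ⟨fun g => c * F g, fun g i => ?_, fun g => ?_⟩
    · change c * ω i (π g) = _
      rw [h1]
      ring
    · have : ∑ i, (c * F (g * s i) - c * F g) = c * ∑ i, (F (g * s i) - F g) := by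
        rw [Finset.mul_sum]
        exact Finset.sum_congr rfl fun i _ => by ring
      rw [this, h2, mul_zero]

/-- sums of squares of the coordinates over a finite set -/
theorem sum_sq_le {Q : Type} [Group Q] {k : ℕ} (ω : VV Q k) (T : Finset Q) :
    ∑ q ∈ T, ∑ i, (ω i q) ^ 2 ≤ ‖ω‖ ^ 2 := by
  rw [Finset.sum_comm, PiLp.norm_sq_eq_of_L2]
  refine Finset.sum_le_sum fun i _ => ?_
  have h := lp.sum_rpow_le_norm_rpow (p := 2) (by norm_num) (ω i) T
  simp only [ENNReal.toReal_ofNat, Real.rpow_two, Real.norm_eq_abs, sq_abs] at h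
  exact h

/-- **First `ℓ²`-Betti numbers of normal coverings.** -/
theorem cover_growth {X : Type u} [MetricSpace X] {G : Type v}
    [Group G] [MulAction G X] (hG : Geo X G) (hGC : GC X) (hno : ∀ g : G, ¬ RankOne X g) (o : X)
    {k : ℕ} (s : Fin k → G) (hinj : Function.Injective s) (hS : ∀ i, ∃ j, s j = (s i)⁻¹)
    (hgen : Subgroup.closure (Set.range s) = ⊤) :
    ∃ C : ℝ, ∀ (Q : Type) [Group Q] (π : G →* Q) (ρ : ℝ), 2 ≤ ρ →
      (∀ x : G, π x = 1 → dist o (x • o) ≤ ρ → x = 1) → vd (GW s π) ≤ C / Real.log ρ := by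
  classical
  obtain ⟨hf, hmul, hinv⟩ := len_facts hG o
  set S : Finset G := Finset.univ.image s with hSd
  have hS' : ∀ x ∈ S, x⁻¹ ∈ S := by
    intro x hx
    obtain ⟨i, -, rfl⟩ := Finset.mem_image.1 hx
    obtain ⟨j, hj⟩ := hS i
    exact Finset.mem_image.2 ⟨j, Finset.mem_univ _, hj⟩
  have hgen' : Subgroup.closure (S : Set G) = ⊤ := by
    rw [hSd, Finset.coe_image, Finset.coe_univ, Set.image_univ]
    exact hgen
  have hsum : ∀ φ : G → ℝ, ∑ x ∈ S, φ x = ∑ i, φ (s i) := by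
    intro φ
    rw [hSd, Finset.sum_image fun i _ j _ h => hinj h]
  obtain ⟨κ, R₀, hκ, hR₀, hE⟩ := energy_uniform hG hGC hno o S hS' hgen' hf
  set ρ₀ : ℝ := 2 * R₀ + 4 with hρ₀
  set c : ℝ := max (2 / κ) (Real.log ρ₀) with hc
  have hc1 : 2 / κ ≤ c := le_max_left _ _
  have hc2 : Real.log ρ₀ ≤ c := le_max_right _ _
  refine ⟨k * c, fun Q _ π ρ hρ hker => ?_⟩
  have hlogρ : 0 < Real.log ρ := Real.log_pos (by linarith)
  have hc0 : 0 ≤ c := (by positivity : (0 : ℝ) ≤ 2 / κ).trans hc1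
  rw [mul_div_assoc]
  refine vd_le_of_eval _ (by positivity) fun ω hω i => ?_
  obtain ⟨F, hF1, hF2⟩ := hω
  have hn0 : 0 ≤ ‖ω‖ ^ 2 := sq_nonneg _
  rcases lt_or_ge ρ ρ₀ with hlt | hge
  · have h1 : (ω i 1) ^ 2 ≤ ‖ω‖ ^ 2 := by
      have h2 := sum_sq_le ω {1}
      rw [Finset.sum_singleton] at h2
      exact (Finset.single_le_sum (f := fun i => (ω i 1) ^ 2) (fun _ _ => sq_nonneg _)
        (Finset.mem_univ i)).trans h2
    refine h1.trans (le_mul_of_one_le_left hn0 ?_)
    rw [le_div_iff₀ hlogρ, one_mul]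
    exact (Real.log_le_log (by linarith) hlt.le).trans hc2
  · set R : ℝ := ρ / 2 with hR
    have hRR : R₀ ≤ R := by rw [hR]; linarith
    have hR2 : 2 ≤ R := by rw [hR]; linarith
    have hlogR : Real.log ρ ≤ 2 * Real.log R := by
      have h1 : ρ ≤ R ^ 2 := by rw [hR]; nlinarith
      have h2 := Real.log_le_log (by linarith) h1
      rw [Real.log_pow] at h2
      push_cast at h2
      exact h2
    have hharm : ∀ g, ∑ x ∈ S, (F (g * x) - F g) = 0 := by
      intro g
      rw [hsum fun x => F (g * x) - F g]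
      exact hF2 g
    have h1 := hE F hharm (s i) (Finset.mem_image.2 ⟨i, Finset.mem_univ _, rfl⟩) R hRR
    have h2 : F (s i) - F 1 = ω i 1 := by
      have := hF1 1 i
      rw [map_one, one_mul] at this
      exact this.symm
    rw [h2] at h1
    have hinjπ : Set.InjOn π ((hf R).toFinset : Set G) := by
      intro g hg h hh hgh
      rw [Finset.mem_coe, Set.Finite.mem_toFinset, Set.mem_ofPred_eq] at hg hh
      have h3 : g * h⁻¹ = 1 := by
        refine hker _ ?_ ?_
        · rw [map_mul, map_inv, hgh, mul_inv_cancel]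
        · refine (hmul g h⁻¹).trans ?_
          rw [hinv]
          rw [hR] at hg hh
          linarith
      exact mul_inv_eq_one.1 h3
    have h3 : ∑ g ∈ (hf R).toFinset, ∑ x ∈ S, (F (g * x) - F g) ^ 2 =
        ∑ g ∈ (hf R).toFinset, ∑ i, (ω i (π g)) ^ 2 := by
      refine Finset.sum_congr rfl fun g _ => ?_
      rw [hsum fun x => (F (g * x) - F g) ^ 2]
      exact Finset.sum_congr rfl fun i _ => by rw [hF1]
    have h4 : ∑ g ∈ (hf R).toFinset, ∑ i, (ω i (π g)) ^ 2 ≤ ‖ω‖ ^ 2 := by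
      rw [← Finset.sum_image (s := (hf R).toFinset) (g := π)
        (f := fun q => ∑ i, (ω i q) ^ 2) hinjπ]
      exact sum_sq_le ω _
    rw [h3] at h1
    have h5 := h1.trans h4
    rw [div_mul_eq_mul_div, le_div_iff₀ hlogρ]
    have h6 : ω i 1 ^ 2 * Real.log ρ ≤ ω i 1 ^ 2 * (2 * Real.log R) :=
      mul_le_mul_of_nonneg_left hlogR (sq_nonneg _)
    have h7 : 2 / κ * (κ * ω i 1 ^ 2 * Real.log R) ≤ 2 / κ * ‖ω‖ ^ 2 :=
      mul_le_mul_of_nonneg_left h5 (by positivity)
    have h8 : 2 / κ * (κ * ω i 1 ^ 2 * Real.log R) = ω i 1 ^ 2 * (2 * Real.log R) := by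
      field_simp
    have h9 : 2 / κ * ‖ω‖ ^ 2 ≤ c * ‖ω‖ ^ 2 := mul_le_mul_of_nonneg_right hc1 hn0
    linarith

end Pool.Agent.Q103.BG
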