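import Pool.Agent.Q103.BG.Energy
import Pool.Agent.Q103.BG.Betti

/-!
# Growth of first Betti numbers of finite index subgroups

`G` acts geometrically on a proper geodesically complete CAT(0) space without rank one isometries.
Then `b₁ (H) ≤ C ([G : H] / log ρ + #{v | v is fixed by some x ≠ 1 of length at most ρ})`.
-/

set_option autoImplicit false

universe u v

open Set Module
open Pool.Agent.TH60.FP Pool.Agent.Y34.HB Pool.Agent.Y34.EL

namespace Pool.Agent.Q103.BG

/-- a geometric action on a CAT(0) space: the group has a finite symmetric generating set -/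
theorem exists_gen {X : Type u} [MetricSpace X] {G : Type v} [Group G] [MulAction G X]
    (hG : Geo X G) (o : X) :
    ∃ S : Finset G, (∀ s ∈ S, s⁻¹ ∈ S) ∧ Subgroup.closure (S : Set G) = ⊤ := by
  obtain ⟨hf, hmul, hinv⟩ := len_facts hG o
  have _ := hG.isom
  obtain ⟨K, hK, hcov⟩ := hG.cc
  obtain ⟨r, hr⟩ := (Metric.isBounded_iff_subset_closedBall o).1 hK.isBounded
  have hcov' : ∀ x : X, ∃ g : G, dist x (g • o) ≤ |r| := by
    intro x
    obtain ⟨g, hg⟩ := hcov x
    refine ⟨g⁻¹, ?_⟩
    have h1 := hr hg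
    rw [Metric.mem_closedBall] at h1
    rw [← dist_smul g x (g⁻¹ • o), smul_inv_smul]
    exact h1.trans (le_abs_self r)
  refine ⟨(hf (2 * |r| + 2)).toFinset, fun s hs => ?_, ?_⟩
  · rw [Set.Finite.mem_toFinset] at hs ⊢
    rw [Set.mem_ofPred_eq, hinv]
    exact hs
  · rw [Set.Finite.coe_toFinset, Subgroup.eq_top_iff']
    have key : ∀ n : ℕ, ∀ g : G, dist o (g • o) ≤ n →
        g ∈ Subgroup.closure {g : G | dist o (g • o) ≤ 2 * |r| + 2} := by
      intro n
      induction n with
      | zero =>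
        intro g hg
        refine Subgroup.subset_closure ?_
        rw [Set.mem_ofPred_eq]
        have := abs_nonneg r
        push_cast at hg
        linarith
      | succ n ih =>
        intro g hg
        by_cases hle : dist o (g • o) ≤ 2 * |r| + 2
        · exact Subgroup.subset_closure hle
        push Not at hle
        push_cast at hg
        obtain ⟨m, hm⟩ := hG.cn o (g • o)
        have hr0 := abs_nonneg r
        have h1 : dist o m ≤ dist o (g • o) / 2 := by
          have := hm o
          rw [dist_self] at this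
          refine abs_le_of_sq_le_sq' ?_ (by positivity) |>.2
          nlinarith
        have h2 : dist (g • o) m ≤ dist o (g • o) / 2 := by
          have := hm (g • o)
          rw [dist_self, dist_comm (g • o) o] at this
          refine abs_le_of_sq_le_sq' ?_ (by positivity) |>.2
          nlinarith
        obtain ⟨k, hk⟩ := hcov' m
        have h3 : dist o (k • o) ≤ n := by
          have := dist_triangle o m (k • o)
          linarith
        have h4 : dist o ((k⁻¹ * g) • o) ≤ n := by
          rw [← dist_smul k, mul_smul, smul_inv_smul, dist_comm]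
          have h5 := dist_triangle (g • o) m (k • o)
          linarith
        have h5 := Subgroup.mul_mem _ (ih k h3) (ih _ h4)
        rwa [mul_inv_cancel_left] at h5
    intro g
    obtain ⟨n, hn⟩ := exists_nat_ge (dist o (g • o))
    exact key n g hn

/-- **Growth of Betti numbers.** -/
theorem betti_growth {X : Type u} [MetricSpace X] {G : Type v}
    [Group G] [MulAction G X] (hG : Geo X G) (hGC : GC X) (hno : ∀ g : G, ¬ RankOne X g) (o : X) :
    ∃ C : ℝ, ∀ (H : Subgroup G) [H.FiniteIndex] (ρ : ℝ), 2 ≤ ρ →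
      Module.Finite ℝ (Additive H →+ ℝ) ∧
      (finrank ℝ (Additive H →+ ℝ) : ℝ) ≤ C * (H.index / Real.log ρ +
        {v : G ⧸ H | ∃ x : G, x ≠ 1 ∧ dist o (x • o) ≤ ρ ∧ x • v = v}.ncard) := by
  classical
  obtain ⟨S, hS, hgen⟩ := exists_gen hG o
  obtain ⟨hf, hmul, hinv⟩ := len_facts hG o
  obtain ⟨κ, R₀, hκ, hR₀, hE⟩ := energy_uniform hG hGC hno o S hS hgen hf
  set ρ₀ : ℝ := 2 * R₀ + 4 with hρ₀
  set c : ℝ := max (2 / κ) (max (Real.log ρ₀) 1) with hc
  have hc1 : 2 / κ ≤ c := le_max_left _ _
  have hc2 : Real.log ρ₀ ≤ c := (le_max_left _ _).trans (le_max_right _ _)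
  have hc3 : 1 ≤ c := (le_max_right _ _).trans (le_max_right _ _)
  refine ⟨S.card * c, fun H _ ρ hρ => ?_⟩
  have _ : Fintype (G ⧸ H) := H.fintypeQuotientOfFiniteIndex
  set Bad : Set (G ⧸ H) := {v | ∃ x : G, x ≠ 1 ∧ dist o (x • o) ≤ ρ ∧ x • v = v} with hBad
  have hlogρ : 0 < Real.log ρ := Real.log_pos (by linarith)
  set K : G ⧸ H → ℝ := fun v => c / Real.log ρ + if v ∈ Bad then 1 else 0 with hK
  have hKpos : ∀ v, 0 ≤ K v := fun v => by
    rw [hK]
    simp only
    split_ifs <;> positivity
  have hpt : ∀ (ω : EuclideanSpace ℝ ((G ⧸ H) × S)) (p : (G ⧸ H) × S), ω p ^ 2 ≤ ‖ω‖ ^ 2 := by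
    intro ω p
    rw [EuclideanSpace.norm_sq_eq]
    have := Finset.single_le_sum (f := fun p => ‖ω p‖ ^ 2) (fun _ _ => sq_nonneg _)
      (Finset.mem_univ p)
    rw [Real.norm_eq_abs, sq_abs] at this
    exact this
  have hEn : ∀ (ω : EuclideanSpace ℝ ((G ⧸ H) × S)), ∑ v : G ⧸ H, ∑ s : S, ω (v, s) ^ 2 =
      ‖ω‖ ^ 2 := by
    intro ω
    rw [EuclideanSpace.norm_sq_eq, Fintype.sum_prod_type]
    exact Finset.sum_congr rfl fun v _ => Finset.sum_congr rfl fun s _ => by
      rw [Real.norm_eq_abs, sq_abs]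
  have hbound : ∀ F ∈ HW H S, ∀ v, ∀ s : S, (dd F : EuclideanSpace ℝ ((G ⧸ H) × S)) (v, s) ^ 2 ≤
      K v * ‖(dd F : EuclideanSpace ℝ ((G ⧸ H) × S))‖ ^ 2 := by
    intro F hF v s
    set ω : EuclideanSpace ℝ ((G ⧸ H) × S) := dd F with hω
    have hn0 : 0 ≤ ‖ω‖ ^ 2 := sq_nonneg _
    by_cases hb : v ∈ Bad
    · have h1 : 1 ≤ K v := by
        simp only [hK, if_pos hb]
        have : 0 ≤ c / Real.log ρ := by positivity
        linarith
      exact (hpt ω (v, s)).trans (le_mul_of_one_le_left hn0 h1)
    · have hKv : K v = c / Real.log ρ := by simp only [hK, if_neg hb, add_zero]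
      rw [hKv]
      rcases lt_or_ge ρ ρ₀ with hlt | hge
      · refine (hpt ω (v, s)).trans (le_mul_of_one_le_left hn0 ?_)
        rw [le_div_iff₀ hlogρ, one_mul]
        exact (Real.log_le_log (by linarith) hlt.le).trans hc2
      · set R : ℝ := ρ / 2 with hR
        have hRR : R₀ ≤ R := by rw [hR]; linarith
        have hR2 : 2 ≤ R := by rw [hR]; linarith
        have hlogR : Real.log ρ ≤ 2 * Real.log R := by
          have h1 : ρ ≤ R ^ 2 := by rw [hR]; nlinarith
          have h2 := Real.log_le_log (by linarith) h1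
          rw [Real.log_pow] at h2
          push_cast at h2
          exact h2
        set g₀ : G := v.out⁻¹ with hg₀
        have hharm : ∀ g, ∑ s ∈ S, ((fun x => F (g₀ * x)) (g * s) - (fun x => F (g₀ * x)) g) = 0 := by
          intro g
          have := hF.1 (g₀ * g)
          simp only [← mul_assoc]
          exact this
        have h1 := hE (fun x => F (g₀ * x)) hharm s s.2 R hRR
        simp only [mul_one] at h1
        have h2 : F (g₀ * s) - F g₀ = ω (v, s) := rfl
        rw [h2] at h1
        -- the ball embeds in the space of cosets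
        have hinj : Set.InjOn (fun g : G => g⁻¹ • v) ((hf R).toFinset : Set G) := by
          intro g hg k hk hgk
          rw [Finset.mem_coe, Set.Finite.mem_toFinset, Set.mem_ofPred_eq] at hg hk
          by_contra hne
          refine hb ⟨k * g⁻¹, ?_, ?_, ?_⟩
          · intro h
            exact hne (mul_inv_eq_one.1 h).symm
          · refine (hmul k g⁻¹).trans ?_
            rw [hinv]
            rw [hR] at hg hk
            linarith
          · rw [mul_smul]
            have h3 : g⁻¹ • v = k⁻¹ • v := hgk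
            rw [h3, smul_inv_smul]
        have h3 : ∑ g ∈ (hf R).toFinset, ∑ s ∈ S, (F (g₀ * (g * s)) - F (g₀ * g)) ^ 2 =
            ∑ g ∈ (hf R).toFinset, ∑ s : S, ω (g⁻¹ • v, s) ^ 2 := by
          refine Finset.sum_congr rfl fun g _ => ?_
          rw [← Finset.sum_coe_sort S (fun s => (F (g₀ * (g * s)) - F (g₀ * g)) ^ 2)]
          refine Finset.sum_congr rfl fun s _ => ?_
          have h4 := diff_out (H := H) F hF.2 (g₀ * g) s
          have e : (((g₀ * g)⁻¹ : G) : G ⧸ H) = g⁻¹ • v := by
            rw [hg₀, mul_inv_rev, inv_inv]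
            conv_rhs => rw [← QuotientGroup.out_eq' v]
            rfl
          rw [e, mul_assoc] at h4
          rw [← h4]
          rfl
        have h4 : ∑ g ∈ (hf R).toFinset, ∑ s : S, ω (g⁻¹ • v, s) ^ 2 ≤ ‖ω‖ ^ 2 := by
          rw [← hEn ω, ← Finset.sum_image (s := (hf R).toFinset) (g := fun g : G => g⁻¹ • v)
            (f := fun w => ∑ s : S, ω (w, s) ^ 2) hinj]
          exact Finset.sum_le_sum_of_subset_of_nonneg (Finset.subset_univ _)
            (fun _ _ _ => Finset.sum_nonneg fun _ _ => sq_nonneg _)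
        rw [h3] at h1
        have h5 := h1.trans h4
        have hlogR0 : 0 < Real.log R := Real.log_pos (by linarith)
        -- `κ ω² log R ≤ ‖ω‖²`
        rw [div_mul_eq_mul_div, le_div_iff₀ hlogρ]
        have h6 : ω (v, s) ^ 2 * Real.log ρ ≤ ω (v, s) ^ 2 * (2 * Real.log R) :=
          mul_le_mul_of_nonneg_left hlogR (sq_nonneg _)
        have h7 : 2 / κ * (κ * ω (v, s) ^ 2 * Real.log R) ≤ 2 / κ * ‖ω‖ ^ 2 :=
          mul_le_mul_of_nonneg_left h5 (by positivity)
        have h8 : 2 / κ * (κ * ω (v, s) ^ 2 * Real.log R) = ω (v, s) ^ 2 * (2 * Real.log R) := by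
          field_simp
        have h9 : 2 / κ * ‖ω‖ ^ 2 ≤ c * ‖ω‖ ^ 2 := mul_le_mul_of_nonneg_right hc1 hn0
        linarith
  obtain ⟨hfin, hle⟩ := betti_le (H := H) (S := S) hS hgen K hKpos hbound
  refine ⟨hfin, hle.trans ?_⟩
  have e1 : ∑ v, K v = (Fintype.card (G ⧸ H)) * (c / Real.log ρ) + Bad.ncard := by
    simp only [hK]
    rw [Finset.sum_add_distrib, Finset.sum_const, nsmul_eq_mul, Finset.card_univ,
      Finset.sum_boole, Set.ncard_eq_toFinset_card']
    congr 2
    congr 1
    ext v
    simp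
  have e2 : (H.index : ℝ) = Fintype.card (G ⧸ H) := by
    rw [Subgroup.index_eq_card, Nat.card_eq_fintype_card]
  rw [e1, e2, mul_assoc]
  refine mul_le_mul_of_nonneg_left ?_ (Nat.cast_nonneg _)
  have h1 : (0 : ℝ) ≤ Bad.ncard := Nat.cast_nonneg _
  have h2 : (Fintype.card (G ⧸ H) : ℝ) * (c / Real.log ρ) =
      c * (Fintype.card (G ⧸ H) / Real.log ρ) := by ring
  rw [h2, mul_add]
  have h3 : (Bad.ncard : ℝ) ≤ c * Bad.ncard := le_mul_of_one_le_left h1 hc3
  linarith

end Pool.Agent.Q103.BG
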