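import Mathlib

/-!
# Averages over sign vectors
-/

set_option autoImplicit false

open Finset

namespace Pool.Agent.Q103.BG

variable {m : ℕ}

/-- the sign -/
def sg (ε : Fin m → Bool) (i : Fin m) : ℝ := if ε i then 1 else -1

theorem sg_sq (ε : Fin m → Bool) (i : Fin m) : sg ε i * sg ε i = 1 := by
  unfold sg
  split_ifs <;> norm_num

/-- flip the sign `i` -/
def fl (i : Fin m) (ε : Fin m → Bool) : Fin m → Bool := Function.update ε i (!ε i)

theorem fl_fl (i : Fin m) (ε : Fin m → Bool) : fl i (fl i ε) = ε := by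
  unfold fl
  ext k
  by_cases h : k = i
  · subst h; simp
  · simp [h]

theorem sg_fl_self (i : Fin m) (ε : Fin m → Bool) : sg (fl i ε) i = - sg ε i := by
  unfold sg fl
  cases ε i <;> simp

theorem sg_fl_ne {i k : Fin m} (h : k ≠ i) (ε : Fin m → Bool) : sg (fl i ε) k = sg ε k := by
  unfold sg fl
  rw [Function.update_of_ne h]

theorem sum_eq_zero_of_flip (i : Fin m) (F : (Fin m → Bool) → ℝ) (h : ∀ ε, F (fl i ε) = - F ε) :
    ∑ ε, F ε = 0 := by
  have h1 : ∑ ε, F ε = ∑ ε, F (fl i ε) := by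
    refine (Finset.sum_bij' (fun ε _ => fl i ε) (fun ε _ => fl i ε) ?_ ?_ ?_ ?_ ?_).symm
    · intros; exact mem_univ _
    · intros; exact mem_univ _
    · intro ε _; exact fl_fl i ε
    · intro ε _; exact fl_fl i ε
    · intro ε _; rfl
  have h2 : ∑ ε, F (fl i ε) = - ∑ ε, F ε := by
    rw [← Finset.sum_neg_distrib]
    exact Finset.sum_congr rfl fun ε _ => h ε
  linarith

theorem card_sg : (Fintype.card (Fin m → Bool) : ℝ) = 2 ^ m := by
  simp

/-- second moments -/
theorem avg_two (c : Fin m → ℝ) : ∑ ε : Fin m → Bool, (∑ i, sg ε i * c i) ^ 2 =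
    2 ^ m * ∑ i, c i ^ 2 := by
  have h1 : ∀ ε : Fin m → Bool, (∑ i, sg ε i * c i) ^ 2 =
      ∑ i, ∑ j, (sg ε i * sg ε j) * (c i * c j) := by
    intro ε
    rw [sq, Finset.sum_mul_sum]
    exact Finset.sum_congr rfl fun i _ => Finset.sum_congr rfl fun j _ => by ring
  simp only [h1]
  rw [Finset.sum_comm, Finset.mul_sum]
  refine Finset.sum_congr rfl fun i _ => ?_
  rw [Finset.sum_comm, Finset.sum_eq_single i]
  · simp only [sg_sq, one_mul]
    rw [Finset.sum_const, nsmul_eq_mul, Finset.card_univ, card_sg, sq]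
  · intro j _ hj
    rw [← Finset.sum_mul, sum_eq_zero_of_flip i, zero_mul]
    intro ε
    rw [sg_fl_self, sg_fl_ne hj]
    ring
  · intro h; exact absurd (mem_univ _) h

/-- orthogonality of the products of two signs -/
theorem orth (p q : Fin m × Fin m) (hp : p.1 < p.2) (hq : q.1 < q.2) (hpq : p ≠ q) :
    ∑ ε : Fin m → Bool, (sg ε p.1 * sg ε p.2) * (sg ε q.1 * sg ε q.2) = 0 := by
  by_cases h1 : p.1 = q.1 ∨ p.1 = q.2
  · have h2 : ¬ (p.2 = q.1 ∨ p.2 = q.2) := by
      rintro (h | h)
      · rcases h1 with h' | h'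
        · rw [h, h'] at hp; exact lt_irrefl _ hp
        · rw [h, h'] at hp; exact absurd (hp.trans hq) (lt_irrefl _)
      · rcases h1 with h' | h'
        · exact hpq (Prod.ext h' h)
        · rw [h, h'] at hp; exact lt_irrefl _ hp
    push Not at h2
    refine sum_eq_zero_of_flip p.2 _ fun ε => ?_
    rw [sg_fl_self, sg_fl_ne hp.ne, sg_fl_ne (Ne.symm h2.1), sg_fl_ne (Ne.symm h2.2)]
    ring
  · push Not at h1
    refine sum_eq_zero_of_flip p.1 _ fun ε => ?_
    rw [sg_fl_self, sg_fl_ne hp.ne', sg_fl_ne (Ne.symm h1.1), sg_fl_ne (Ne.symm h1.2)]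
    ring

/-- fourth moments -/
theorem avg_four (U : Fin m → Fin m → ℝ) (hU : ∀ i j, ¬ i < j → U i j = 0) :
    ∑ ε : Fin m → Bool, (∑ i, ∑ j, sg ε i * sg ε j * U i j) ^ 2 =
      2 ^ m * ∑ i, ∑ j, U i j ^ 2 := by
  have h0 : ∀ f : Fin m → Fin m → ℝ, ∑ i, ∑ j, f i j = ∑ p : Fin m × Fin m, f p.1 p.2 := by
    intro f
    rw [Fintype.sum_prod_type]
  have h1 : ∀ ε : Fin m → Bool, (∑ i, ∑ j, sg ε i * sg ε j * U i j) ^ 2 =
      ∑ p : Fin m × Fin m, ∑ q : Fin m × Fin m,
        ((sg ε p.1 * sg ε p.2) * (sg ε q.1 * sg ε q.2)) * (U p.1 p.2 * U q.1 q.2) := by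
    intro ε
    rw [h0, sq, Finset.sum_mul_sum]
    exact Finset.sum_congr rfl fun i _ => Finset.sum_congr rfl fun j _ => by ring
  simp only [h1]
  rw [Finset.sum_comm, h0, Finset.mul_sum]
  refine Finset.sum_congr rfl fun p _ => ?_
  rw [Finset.sum_comm, Finset.sum_eq_single p]
  · have : ∀ ε : Fin m → Bool, (sg ε p.1 * sg ε p.2) * (sg ε p.1 * sg ε p.2) = 1 := by
      intro ε
      have := sg_sq ε p.1
      have := sg_sq ε p.2
      calc _ = (sg ε p.1 * sg ε p.1) * (sg ε p.2 * sg ε p.2) := by ring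
        _ = 1 := by rw [sg_sq, sg_sq, one_mul]
    simp only [this, one_mul]
    rw [Finset.sum_const, nsmul_eq_mul, Finset.card_univ, card_sg, sq]
  · intro q _ hq
    by_cases hp' : p.1 < p.2
    · by_cases hq' : q.1 < q.2
      · rw [← Finset.sum_mul, orth p q hp' hq' (Ne.symm hq), zero_mul]
      · simp [hU _ _ hq']
    · simp [hU _ _ hp']
  · intro h; exact absurd (mem_univ _) h

/-- the average of the absolute value of a quadratic form over the sign vectors -/
theorem avg_abs (A : Fin m → Fin m → ℝ) :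
    ∑ ε : Fin m → Bool, |∑ i, ∑ j, sg ε i * sg ε j * A i j| ≤
      2 ^ m * (|∑ i, A i i| + √(2 * ∑ i, ∑ j, A i j ^ 2)) := by
  set U : Fin m → Fin m → ℝ := fun i j => if i < j then A i j + A j i else 0 with hU
  have hsplit : ∀ ε : Fin m → Bool, ∑ i, ∑ j, sg ε i * sg ε j * A i j =
      ∑ i, A i i + ∑ i, ∑ j, sg ε i * sg ε j * U i j := by
    intro ε
    have e1 : ∀ i j, sg ε i * sg ε j * A i j = (if i = j then A i i else 0) +
        ((if i < j then sg ε i * sg ε j * A i j else 0) +
          (if j < i then sg ε i * sg ε j * A i j else 0)) := by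
      intro i j
      rcases lt_trichotomy i j with h | h | h
      · simp [h, h.ne, h.not_gt]
      · subst h
        simp [sg_sq]
      · simp [h, h.ne', h.not_gt]
    have e2 : ∑ i, ∑ j, (if j < i then sg ε i * sg ε j * A i j else 0) =
        ∑ i, ∑ j, (if i < j then sg ε i * sg ε j * A j i else 0) := by
      rw [Finset.sum_comm]
      refine Finset.sum_congr rfl fun i _ => Finset.sum_congr rfl fun j _ => ?_
      split_ifs
      · ring
      · rfl
    calc ∑ i, ∑ j, sg ε i * sg ε j * A i j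
        = ∑ i, ∑ j, ((if i = j then A i i else 0) +
        ((if i < j then sg ε i * sg ε j * A i j else 0) +
          (if j < i then sg ε i * sg ε j * A i j else 0))) :=
          Finset.sum_congr rfl fun i _ => Finset.sum_congr rfl fun j _ => e1 i j
      _ = ∑ i, A i i + (∑ i, ∑ j, (if i < j then sg ε i * sg ε j * A i j else 0) +
          ∑ i, ∑ j, (if j < i then sg ε i * sg ε j * A i j else 0)) := by
          simp only [Finset.sum_add_distrib]
          congr 1
          refine Finset.sum_congr rfl fun i _ => ?_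
          rw [Finset.sum_ite_eq]
          simp
      _ = ∑ i, A i i + ∑ i, ∑ j, sg ε i * sg ε j * U i j := by
          rw [e2, ← Finset.sum_add_distrib]
          congr 1
          refine Finset.sum_congr rfl fun i _ => ?_
          rw [← Finset.sum_add_distrib]
          refine Finset.sum_congr rfl fun j _ => ?_
          simp only [hU]
          split_ifs
          · ring
          · ring
  have hUsq : ∑ i, ∑ j, U i j ^ 2 ≤ 2 * ∑ i, ∑ j, A i j ^ 2 := by
    have e1 : ∀ i j, U i j ^ 2 ≤ (if i < j then 2 * A i j ^ 2 else 0) +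
        (if i < j then 2 * A j i ^ 2 else 0) := by
      intro i j
      simp only [hU]
      split_ifs
      · nlinarith [sq_nonneg (A i j - A j i)]
      · norm_num
    have e2 : ∑ i, ∑ j, (if i < j then 2 * A j i ^ 2 else 0) =
        ∑ i, ∑ j, (if j < i then 2 * A i j ^ 2 else 0) := Finset.sum_comm
    calc ∑ i, ∑ j, U i j ^ 2 ≤ ∑ i, ∑ j, ((if i < j then 2 * A i j ^ 2 else 0) +
        (if i < j then 2 * A j i ^ 2 else 0)) :=
          Finset.sum_le_sum fun i _ => Finset.sum_le_sum fun j _ => e1 i j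
      _ = ∑ i, ∑ j, (if i < j then 2 * A i j ^ 2 else 0) +
          ∑ i, ∑ j, (if j < i then 2 * A i j ^ 2 else 0) := by
          simp only [Finset.sum_add_distrib]
          rw [e2]
      _ = ∑ i, ∑ j, ((if i < j then 2 * A i j ^ 2 else 0) +
          (if j < i then 2 * A i j ^ 2 else 0)) := by
          simp only [Finset.sum_add_distrib]
      _ ≤ ∑ i, ∑ j, 2 * A i j ^ 2 := by
          refine Finset.sum_le_sum fun i _ => Finset.sum_le_sum fun j _ => ?_
          have h0 := sq_nonneg (A i j)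
          rcases lt_trichotomy i j with h | h | h
          · simp [h, h.not_gt]
          · subst h
            simp
            exact sq_nonneg _
          · simp [h, h.not_gt]
      _ = 2 * ∑ i, ∑ j, A i j ^ 2 := by
          rw [Finset.mul_sum]
          exact Finset.sum_congr rfl fun i _ => by rw [Finset.mul_sum]
  have hpos : (0 : ℝ) < 2 ^ m := by positivity
  have hoff : ∑ ε : Fin m → Bool, |∑ i, ∑ j, sg ε i * sg ε j * U i j| ≤
      2 ^ m * √(2 * ∑ i, ∑ j, A i j ^ 2) := by
    have h1 := sq_sum_le_card_mul_sum_sq (s := (Finset.univ : Finset (Fin m → Bool)))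
      (f := fun ε => |∑ i, ∑ j, sg ε i * sg ε j * U i j|)
    simp only [sq_abs] at h1
    rw [avg_four U (fun i j h => by simp only [hU]; rw [if_neg h]), Finset.card_univ, card_sg] at h1
    have h2 : (∑ ε : Fin m → Bool, |∑ i, ∑ j, sg ε i * sg ε j * U i j|) ^ 2 ≤
        (2 ^ m * √(2 * ∑ i, ∑ j, A i j ^ 2)) ^ 2 := by
      refine h1.trans ?_
      rw [mul_pow, Real.sq_sqrt (by positivity), sq, mul_assoc]
      exact mul_le_mul_of_nonneg_left (mul_le_mul_of_nonneg_left hUsq hpos.le) hpos.le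
    exact abs_le_of_sq_le_sq' h2 (by positivity) |>.2
  calc ∑ ε : Fin m → Bool, |∑ i, ∑ j, sg ε i * sg ε j * A i j|
      ≤ ∑ ε : Fin m → Bool, (|∑ i, A i i| + |∑ i, ∑ j, sg ε i * sg ε j * U i j|) :=
        Finset.sum_le_sum fun ε _ => by
          rw [hsplit ε]
          exact abs_add_le _ _
    _ = 2 ^ m * |∑ i, A i i| + ∑ ε : Fin m → Bool, |∑ i, ∑ j, sg ε i * sg ε j * U i j| := by
        rw [Finset.sum_add_distrib, Finset.sum_const, nsmul_eq_mul, Finset.card_univ, card_sg]
    _ ≤ 2 ^ m * (|∑ i, A i i| + √(2 * ∑ i, ∑ j, A i j ^ 2)) := by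
        rw [mul_add]
        exact add_le_add_right hoff _

end Pool.Agent.Q103.BG
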