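import Pool.Agent.Q103.BG.Main
import Pool.Agent.Q103.BG.Sign

/-!
# First cohomology with coefficients in orthogonal representations

`G` acts geometrically on a proper geodesically complete CAT(0) space without rank one isometries.
Then `dim H¹(G; π) ≤ C / log ρ * (dim π + ∑ (|χ_π (x)| + √ (dim π)))`, the sum over the nontrivial
elements `x` of length at most `ρ`.
-/

set_option autoImplicit false
set_option linter.unusedSectionVars false

universe u v w

open Set Module
open Pool.Agent.TH60.FP Pool.Agent.Y34.HB Pool.Agent.Y34.EL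

namespace Pool.Agent.Q103.BG

section defs

variable {G : Type v} [Group G] {V : Type w} [NormedAddCommGroup V] [InnerProductSpace ℝ V]

/-- one-cocycles -/
def Z1 (π : G →* (V ≃ₗᵢ[ℝ] V)) : Submodule ℝ (G → V) where
  carrier := {b | ∀ g h, b (g * h) = b g + π g (b h)}
  add_mem' {b b'} hb hb' g h := by
    simp only [Pi.add_apply]
    rw [hb g h, hb' g h, map_add]
    abel
  zero_mem' g h := by simp
  smul_mem' c b hb g h := by
    simp only [Pi.smul_apply]
    rw [hb g h, smul_add, (π g).map_smul]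

/-- coboundaries -/
def B1 (π : G →* (V ≃ₗᵢ[ℝ] V)) : Submodule ℝ (G → V) where
  carrier := {b | ∃ v, ∀ g, b g = π g v - v}
  add_mem' {b b'} := by
    rintro ⟨v, hv⟩ ⟨v', hv'⟩
    refine ⟨v + v', fun g => ?_⟩
    simp only [Pi.add_apply]
    rw [hv, hv', map_add]
    abel
  zero_mem' := ⟨0, fun g => by simp⟩
  smul_mem' c b := by
    rintro ⟨v, hv⟩
    refine ⟨c • v, fun g => ?_⟩
    simp only [Pi.smul_apply]
    rw [hv, smul_sub, (π g).map_smul]

variable {π : G →* (V ≃ₗᵢ[ℝ] V)}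

theorem Z1_one {b : G → V} (hb : b ∈ Z1 π) : b 1 = 0 := by
  have h := hb 1 1
  rw [mul_one, map_one] at h
  simpa using h

theorem Z1_inv {b : G → V} (hb : b ∈ Z1 π) (g : G) : b g⁻¹ = - π g⁻¹ (b g) := by
  have h := hb g⁻¹ g
  rw [inv_mul_cancel, Z1_one hb] at h
  exact eq_neg_of_add_eq_zero_left h.symm

theorem B1_le : B1 π ≤ Z1 π := by
  rintro b ⟨v, hv⟩ g h
  rw [hv, hv, hv, map_mul, map_sub]
  change π g (π h v) - v = _
  abel

/-- a cocycle which vanishes on a generating set is zero -/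
theorem Z1_eq_zero {S : Finset G} (hgen : Subgroup.closure (S : Set G) = ⊤) {b : G → V}
    (hb : b ∈ Z1 π) (h : ∀ s ∈ S, b s = 0) : b = 0 := by
  have key : ∀ g ∈ Subgroup.closure (S : Set G), b g = 0 := by
    intro g hg
    induction hg using Subgroup.closure_induction with
    | mem x hx => exact h x hx
    | one => exact Z1_one hb
    | mul x y _ _ hx hy => rw [hb, hx, hy, map_zero, add_zero]
    | inv x _ hx => rw [Z1_inv hb, hx, map_zero, neg_zero]
  funext g
  exact key g (by rw [hgen]; exact Subgroup.mem_top g)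

/-- the restriction to the generating set -/
noncomputable def re (S : Finset G) : (G → V) →ₗ[ℝ] PiLp 2 (fun _ : S => V) where
  toFun b := WithLp.toLp 2 (fun s : S => b s)
  map_add' _ _ := rfl
  map_smul' _ _ := rfl

theorem re_apply (S : Finset G) (b : G → V) (s : S) : re S b s = b s := rfl

theorem inv_apply (g : G) (v w : V) : inner ℝ v (π g w) = inner ℝ ((π g)⁻¹ v) w := by
  rw [← (π g).inner_map_map ((π g)⁻¹ v) w]
  congr 1
  exact ((π g).apply_symm_apply v).symm

variable [FiniteDimensional ℝ V]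

theorem re_inj {S : Finset G} (hgen : Subgroup.closure (S : Set G) = ⊤) :
    Function.Injective ((re S : (G → V) →ₗ[ℝ] _).domRestrict (Z1 π)) := by
  rw [← LinearMap.ker_eq_bot, LinearMap.ker_eq_bot']
  intro b hb
  refine Subtype.ext (Z1_eq_zero hgen b.2 fun s hs => ?_)
  have := congrArg (fun f : PiLp 2 (fun _ : S => V) => f ⟨s, hs⟩) hb
  exact this

theorem finite_Z1 {S : Finset G} (hgen : Subgroup.closure (S : Set G) = ⊤) :
    Module.Finite ℝ (Z1 π) :=
  Module.Finite.of_injective _ (re_inj (π := π) hgen)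

/-- the values on `S` of the harmonic cocycles: the orthogonal complement of the coboundaries -/
noncomputable def Om (π : G →* (V ≃ₗᵢ[ℝ] V)) (S : Finset G) :
    Submodule ℝ (PiLp 2 (fun _ : S => V)) :=
  ((B1 π).map (re S))ᗮ ⊓ (Z1 π).map (re S)

theorem finrank_eq {S : Finset G} (hgen : Subgroup.closure (S : Set G) = ⊤) :
    finrank ℝ (Z1 π ⧸ (B1 π).submoduleOf (Z1 π)) = finrank ℝ (Om π S) := by
  have _ := finite_Z1 (π := π) hgen
  have h1 := Submodule.finrank_quotient_add_finrank ((B1 π).submoduleOf (Z1 π))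
  have hle : (B1 π).map (re S) ≤ (Z1 π).map (re S) := Submodule.map_mono B1_le
  have h2 := Submodule.finrank_add_inf_finrank_orthogonal hle
  have h3 : finrank ℝ ((Z1 π).map (re S)) = finrank ℝ (Z1 π) := by
    have e : (Z1 π).map (re S) = LinearMap.range ((re S : (G → V) →ₗ[ℝ] _).domRestrict (Z1 π)) := by
      rw [LinearMap.range_domRestrict]
    rw [e]
    exact LinearMap.finrank_range_of_inj (re_inj hgen)
  have h4 : finrank ℝ ((B1 π).map (re S)) = finrank ℝ ((B1 π).submoduleOf (Z1 π)) := by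
    have e : (B1 π).map (re S) = ((B1 π).submoduleOf (Z1 π)).map
        ((re S : (G → V) →ₗ[ℝ] _).domRestrict (Z1 π)) := by
      ext x
      constructor
      · rintro ⟨b, hb, rfl⟩
        exact ⟨⟨b, B1_le hb⟩, hb, rfl⟩
      · rintro ⟨b, hb, rfl⟩
        exact ⟨b.1, hb, rfl⟩
    rw [e]
    exact (LinearEquiv.finrank_eq (Submodule.equivMapOfInjective _ (re_inj hgen) _)).symm
  unfold Om
  omega

/-- the elements of `Om` come from harmonic cocycles -/
theorem Om_harm {S : Finset G} (hS : ∀ s ∈ S, s⁻¹ ∈ S) {ω : PiLp 2 (fun _ : S => V)}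
    (hω : ω ∈ Om π S) : ∃ b ∈ Z1 π, (∀ s : S, b s = ω s) ∧ ∑ s ∈ S, b s = 0 := by
  obtain ⟨h1, b, hb, rfl⟩ := hω
  refine ⟨b, hb, fun s => rfl, ?_⟩
  have h2 : ∀ v : V, inner ℝ v (∑ s ∈ S, b s) = (0 : ℝ) := by
    intro v
    have h3 := h1 (re S (fun g => π g v - v)) ⟨_, ⟨v, fun g => rfl⟩, rfl⟩
    rw [PiLp.inner_apply] at h3
    have h4 : ∑ s : S, inner ℝ (π s v - v) (b s) = (0 : ℝ) := h3
    rw [Finset.sum_coe_sort S (fun s => inner ℝ (π s v - v) (b s))] at h4
    simp only [inner_sub_left, Finset.sum_sub_distrib] at h4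
    have h5 : ∑ s ∈ S, inner ℝ (π s v) (b s) = - ∑ s ∈ S, (inner ℝ v (b s) : ℝ) := by
      rw [← Finset.sum_neg_distrib]
      refine Finset.sum_bij' (fun s _ => s⁻¹) (fun s _ => s⁻¹) hS hS (fun _ _ => inv_inv _)
        (fun _ _ => inv_inv _) fun s _ => ?_
      rw [Z1_inv hb, inner_neg_right, neg_neg, map_inv]
      rw [real_inner_comm, inv_apply, real_inner_comm]
    rw [h5] at h4
    rw [inner_sum]
    linarith
  have h3 := h2 (∑ s ∈ S, b s)
  exact inner_self_eq_zero.1 h3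

end defs

/-- bound of a functional on an orthonormal basis -/
theorem func_bound {E : Type*} [NormedAddCommGroup E] [InnerProductSpace ℝ E] {n : ℕ}
    (b : Fin n → E) (hb : Orthonormal ℝ b) (f : E →ₗ[ℝ] ℝ) {M : ℝ}
    (hM : ∀ x ∈ Submodule.span ℝ (Set.range b), f x ^ 2 ≤ M * ‖x‖ ^ 2) :
    ∑ j, f (b j) ^ 2 ≤ M ∨ ∑ j, f (b j) ^ 2 = 0 := by
  set t : Fin n → ℝ := fun j => f (b j) with ht
  set p : E := ∑ j, t j • b j with hp
  have hpm : p ∈ Submodule.span ℝ (Set.range b) :=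
    Submodule.sum_mem _ fun j _ => Submodule.smul_mem _ _ (Submodule.subset_span ⟨j, rfl⟩)
  have h1 : f p = ∑ j, t j ^ 2 := by
    rw [hp, map_sum]
    exact Finset.sum_congr rfl fun j _ => by rw [map_smul, smul_eq_mul, sq]
  have h2 : ‖p‖ ^ 2 = ∑ j, t j ^ 2 := by
    rw [← real_inner_self_eq_norm_sq, hp, hb.inner_sum]
    exact Finset.sum_congr rfl fun j _ => by simp [sq]
  have h3 := hM p hpm
  rw [h1, h2] at h3
  rcases eq_or_ne (∑ j, t j ^ 2) 0 with h0 | h0
  · exact Or.inr h0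
  · left
    have hpos : 0 < ∑ j, t j ^ 2 := lt_of_le_of_ne (Finset.sum_nonneg fun _ _ => sq_nonneg _)
      (Ne.symm h0)
    rw [sq] at h3
    exact le_of_mul_le_mul_right h3 hpos

/-- an inequality of Selberg type -/
theorem selberg {V : Type*} [NormedAddCommGroup V] [InnerProductSpace ℝ V] {ι : Type*}
    (B : Finset ι) (e : ι → V) (w : V) {M : ℝ} (hM0 : 0 ≤ M)
    (hM : ∀ g ∈ B, ∑ h ∈ B, |(inner ℝ (e g) (e h) : ℝ)| ≤ M) :
    ∑ g ∈ B, (inner ℝ w (e g) : ℝ) ^ 2 ≤ ‖w‖ ^ 2 * M := by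
  set a : ι → ℝ := fun g => inner ℝ w (e g) with ha
  set p : V := ∑ g ∈ B, a g • e g with hp
  set A : ℝ := ∑ g ∈ B, a g ^ 2 with hA
  have hA0 : 0 ≤ A := Finset.sum_nonneg fun _ _ => sq_nonneg _
  have h1 : inner ℝ w p = A := by
    rw [hp, inner_sum]
    exact Finset.sum_congr rfl fun g _ => by rw [inner_smul_right, sq]
  have h2 : ‖p‖ ^ 2 ≤ M * A := by
    rw [← real_inner_self_eq_norm_sq]
    have e1 : (inner ℝ p p : ℝ) = ∑ g ∈ B, ∑ h ∈ B, a g * a h * inner ℝ (e g) (e h) := by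
      rw [hp, sum_inner]
      refine Finset.sum_congr rfl fun g _ => ?_
      rw [inner_sum]
      refine Finset.sum_congr rfl fun h _ => ?_
      rw [inner_smul_left, inner_smul_right]
      simp only [conj_trivial]
      ring
    have e2 : ∀ g h : ι, a g * a h * (inner ℝ (e g) (e h) : ℝ) ≤
        a g ^ 2 / 2 * |(inner ℝ (e g) (e h) : ℝ)| + a h ^ 2 / 2 * |(inner ℝ (e h) (e g) : ℝ)| := by
      intro g h
      rw [real_inner_comm (e g) (e h)]
      set z := (inner ℝ (e g) (e h) : ℝ)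
      have h3 : a g * a h * z ≤ |a g| * |a h| * |z| := by
        rw [← abs_mul, ← abs_mul]
        exact le_abs_self _
      have h4 : |a g| * |a h| ≤ a g ^ 2 / 2 + a h ^ 2 / 2 := by
        rw [← sq_abs (a g), ← sq_abs (a h)]
        nlinarith [sq_nonneg (|a g| - |a h|)]
      calc a g * a h * z ≤ |a g| * |a h| * |z| := h3
        _ ≤ (a g ^ 2 / 2 + a h ^ 2 / 2) * |z| := mul_le_mul_of_nonneg_right h4 (abs_nonneg _)
        _ = _ := by ring
    rw [e1]
    calc ∑ g ∈ B, ∑ h ∈ B, a g * a h * (inner ℝ (e g) (e h) : ℝ)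
        ≤ ∑ g ∈ B, ∑ h ∈ B, (a g ^ 2 / 2 * |(inner ℝ (e g) (e h) : ℝ)| +
          a h ^ 2 / 2 * |(inner ℝ (e h) (e g) : ℝ)|) :=
          Finset.sum_le_sum fun g _ => Finset.sum_le_sum fun h _ => e2 g h
      _ = ∑ g ∈ B, ∑ h ∈ B, a g ^ 2 / 2 * |(inner ℝ (e g) (e h) : ℝ)| +
          ∑ h ∈ B, ∑ g ∈ B, a h ^ 2 / 2 * |(inner ℝ (e h) (e g) : ℝ)| := by
          simp only [Finset.sum_add_distrib]
          congr 1
          exact Finset.sum_comm
      _ ≤ ∑ g ∈ B, a g ^ 2 / 2 * M + ∑ h ∈ B, a h ^ 2 / 2 * M := by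
          refine add_le_add (Finset.sum_le_sum fun g hg => ?_) (Finset.sum_le_sum fun h hh => ?_)
          · rw [← Finset.mul_sum]
            exact mul_le_mul_of_nonneg_left (hM g hg) (by positivity)
          · rw [← Finset.mul_sum]
            exact mul_le_mul_of_nonneg_left (hM h hh) (by positivity)
      _ = M * A := by
          rw [← Finset.sum_add_distrib, hA, Finset.mul_sum]
          exact Finset.sum_congr rfl fun g _ => by ring
  have h3 : A ^ 2 ≤ ‖w‖ ^ 2 * (M * A) := by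
    have h4 := abs_real_inner_le_norm w p
    rw [h1, abs_of_nonneg hA0] at h4
    calc A ^ 2 ≤ (‖w‖ * ‖p‖) ^ 2 := pow_le_pow_left₀ hA0 h4 2
      _ = ‖w‖ ^ 2 * ‖p‖ ^ 2 := by ring
      _ ≤ ‖w‖ ^ 2 * (M * A) := mul_le_mul_of_nonneg_left h2 (sq_nonneg _)
  rcases hA0.eq_or_lt with h0 | h0
  · rw [← h0]
    positivity
  · have h4 : A * A ≤ ‖w‖ ^ 2 * M * A := by nlinarith
    exact le_of_mul_le_mul_right h4 h0

end Pool.Agent.Q103.BG
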