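import Pool.Agent.Q103.BG.Rep

/-!
# First cohomology with coefficients in orthogonal representations: the bound
-/

set_option autoImplicit false
set_option linter.unusedSectionVars false

universe u v w

open Set Module
open Pool.Agent.TH60.FP Pool.Agent.Y34.HB Pool.Agent.Y34.EL

namespace Pool.Agent.Q103.BG

section

variable {G : Type v} [Group G] {V : Type w} [NormedAddCommGroup V] [InnerProductSpace ℝ V]

/-- the functional `ω ↦ ⟨v, ω s⟩` -/
noncomputable def fn {S : Finset G} (s : S) (v : V) : PiLp 2 (fun _ : S => V) →ₗ[ℝ] ℝ where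
  toFun ω := inner ℝ v (ω s)
  map_add' ω ω' := by
    change inner ℝ v (ω s + ω' s) = _
    rw [inner_add_right]
  map_smul' c ω := by
    change inner ℝ v (c • ω s) = _
    rw [inner_smul_right]
    rfl

variable [FiniteDimensional ℝ V]

/-- sign vectors -/
noncomputable def vec (ε : Fin (finrank ℝ V) → Bool) : V :=
  ∑ i, sg ε i • stdOrthonormalBasis ℝ V i

theorem inner_vec (ε : Fin (finrank ℝ V) → Bool) (w : V) : (inner ℝ (vec ε) w : ℝ) =
    ∑ i, sg ε i * inner ℝ (stdOrthonormalBasis ℝ V i) w := by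
  unfold vec
  rw [sum_inner]
  refine Finset.sum_congr rfl fun i _ => ?_
  rw [inner_smul_left]
  simp

theorem avg_vec (w : V) : ∑ ε : Fin (finrank ℝ V) → Bool, (inner ℝ (vec ε) w : ℝ) ^ 2 =
    2 ^ finrank ℝ V * ‖w‖ ^ 2 := by
  simp only [inner_vec]
  rw [avg_two]
  congr 1
  rw [← (stdOrthonormalBasis ℝ V).sum_sq_norm_inner_right w]
  exact Finset.sum_congr rfl fun i _ => by rw [Real.norm_eq_abs, sq_abs]

theorem avg_form (T : V ≃ₗᵢ[ℝ] V) :
    ∑ ε : Fin (finrank ℝ V) → Bool, |(inner ℝ (vec ε) (T (vec ε)) : ℝ)| ≤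
      2 ^ finrank ℝ V * (|LinearMap.trace ℝ V (T.toLinearEquiv : V →ₗ[ℝ] V)| +
        √(2 * finrank ℝ V)) := by
  set e := stdOrthonormalBasis ℝ V with he
  set A : Fin (finrank ℝ V) → Fin (finrank ℝ V) → ℝ := fun i j => inner ℝ (e i) (T (e j)) with hA
  have h1 : ∀ ε, (inner ℝ (vec ε) (T (vec ε)) : ℝ) = ∑ i, ∑ j, sg ε i * sg ε j * A i j := by
    intro ε
    rw [inner_vec]
    refine Finset.sum_congr rfl fun i _ => ?_
    have h2 : T (vec ε) = ∑ j, sg ε j • T (e j) := by
      unfold vec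
      rw [map_sum]
      exact Finset.sum_congr rfl fun j _ => by rw [T.map_smul]
    rw [h2, inner_sum, Finset.mul_sum]
    refine Finset.sum_congr rfl fun j _ => ?_
    rw [inner_smul_right]
    ring
  have h2 : LinearMap.trace ℝ V (T.toLinearEquiv : V →ₗ[ℝ] V) = ∑ i, A i i := by
    rw [LinearMap.trace_eq_sum_inner _ e]
    rfl
  have h3 : ∑ i, ∑ j, A i j ^ 2 = finrank ℝ V := by
    rw [Finset.sum_comm]
    have h4 : ∀ j, ∑ i, A i j ^ 2 = 1 := by
      intro j
      have h5 := e.sum_sq_norm_inner_right (T (e j))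
      rw [T.norm_map, e.norm_eq_one, one_pow] at h5
      rw [← h5]
      exact Finset.sum_congr rfl fun i _ => by rw [Real.norm_eq_abs, sq_abs]
    simp only [h4]
    simp
  simp only [h1]
  rw [h2, ← h3]
  exact avg_abs A

theorem avg_self : ∑ ε : Fin (finrank ℝ V) → Bool, |(inner ℝ (vec ε) (vec ε : V) : ℝ)| =
    2 ^ finrank ℝ V * finrank ℝ V := by
  have h1 : ∀ ε : Fin (finrank ℝ V) → Bool, |(inner ℝ (vec ε) (vec ε : V) : ℝ)| =
      finrank ℝ V := by
    intro ε
    rw [inner_vec]
    have h2 : ∀ i, (inner ℝ (stdOrthonormalBasis ℝ V i) (vec ε) : ℝ) = sg ε i := by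
      intro i
      rw [real_inner_comm, inner_vec, Finset.sum_eq_single i]
      · rw [real_inner_self_eq_norm_sq, (stdOrthonormalBasis ℝ V).norm_eq_one]
        ring
      · intro j _ hj
        rw [(stdOrthonormalBasis ℝ V).orthonormal.2 hj, mul_zero]
      · intro h; exact absurd (Finset.mem_univ _) h
    simp only [h2, sg_sq]
    simp
  simp only [h1]
  rw [Finset.sum_const, nsmul_eq_mul, Finset.card_univ, card_sg]

end

/-- **First cohomology with coefficients in orthogonal representations.** -/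
theorem rep_growth {X : Type u} [MetricSpace X] {G : Type v}
    [Group G] [MulAction G X] (hG : Geo X G) (hGC : GC X) (hno : ∀ g : G, ¬ RankOne X g) (o : X)
    (hf : ∀ R : ℝ, {g : G | dist o (g • o) ≤ R}.Finite) :
    ∃ C : ℝ, ∀ (V : Type w) [NormedAddCommGroup V] [InnerProductSpace ℝ V]
      [FiniteDimensional ℝ V] (π : G →* (V ≃ₗᵢ[ℝ] V)) (ρ : ℝ), 2 ≤ ρ →
      Module.Finite ℝ (Z1 π ⧸ (B1 π).submoduleOf (Z1 π)) ∧
      (finrank ℝ (Z1 π ⧸ (B1 π).submoduleOf (Z1 π)) : ℝ) ≤ C / Real.log ρ * (finrank ℝ V +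
        ∑ᶠ x ∈ {x : G | x ≠ 1 ∧ dist o (x • o) ≤ ρ},
          (|LinearMap.trace ℝ V ((π x).toLinearEquiv : V →ₗ[ℝ] V)| + √(finrank ℝ V))) := by
  classical
  obtain ⟨S, hS, hgen⟩ := exists_gen hG o
  obtain ⟨-, hmul, hinv⟩ := len_facts hG o
  obtain ⟨κ, R₀, hκ, hR₀, hE⟩ := energy_uniform hG hGC hno o S hS hgen hf
  set ρ₀ : ℝ := 2 * R₀ + 4 with hρ₀
  set c : ℝ := max (4 / κ) (Real.log ρ₀) with hc
  have hc1 : 4 / κ ≤ c := le_max_left _ _
  have hc2 : Real.log ρ₀ ≤ c := le_max_right _ _
  have hc0 : 0 ≤ c := (by positivity : (0 : ℝ) ≤ 4 / κ).trans hc1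
  refine ⟨S.card * c, fun V _ _ _ π ρ hρ => ?_⟩
  have hfin := finite_Z1 (π := π) hgen
  refine ⟨inferInstance, ?_⟩
  rw [finrank_eq hgen]
  have hlogρ : 0 < Real.log ρ := Real.log_pos (by linarith)
  set m := finrank ℝ V with hm
  set D := finrank ℝ (Om π S) with hD
  set B : Finset G := (hf ρ).toFinset.erase 1 with hB
  have hfs : ∑ᶠ x ∈ {x : G | x ≠ 1 ∧ dist o (x • o) ≤ ρ},
      (|LinearMap.trace ℝ V ((π x).toLinearEquiv : V →ₗ[ℝ] V)| + √(m : ℝ)) =
      ∑ x ∈ B, (|LinearMap.trace ℝ V ((π x).toLinearEquiv : V →ₗ[ℝ] V)| + √(m : ℝ)) := by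
    have hset : {x : G | x ≠ 1 ∧ dist o (x • o) ≤ ρ} = (B : Set G) := by
      ext x
      simp [hB]
      exact and_comm
    rw [hset, finsum_mem_coe_finset]
  rw [hfs]
  set T : ℝ := ∑ x ∈ B, (|LinearMap.trace ℝ V ((π x).toLinearEquiv : V →ₗ[ℝ] V)| + √(m : ℝ)) with hT
  have hT0 : 0 ≤ T := Finset.sum_nonneg fun _ _ => by positivity
  have hk0 : (0 : ℝ) ≤ S.card := Nat.cast_nonneg _
  have hm0 : (0 : ℝ) ≤ m := Nat.cast_nonneg _
  rcases lt_or_ge ρ ρ₀ with hlt | hge
  · -- the trivial bound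
    have h1 : D ≤ S.card * m := by
      have h2 : D ≤ finrank ℝ (PiLp 2 (fun _ : S => V)) := Submodule.finrank_le _
      have h3 : finrank ℝ (PiLp 2 (fun _ : S => V)) = S.card * m := by
        rw [(WithLp.linearEquiv 2 ℝ (S → V)).finrank_eq, Module.finrank_pi_fintype]
        simp [hm]
      omega
    have h2 : (D : ℝ) ≤ S.card * m := by exact_mod_cast h1
    have h3 : 1 ≤ c / Real.log ρ := by
      rw [le_div_iff₀ hlogρ, one_mul]
      exact (Real.log_le_log (by linarith) hlt.le).trans hc2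
    calc (D : ℝ) ≤ S.card * m := h2
      _ ≤ S.card * (c / Real.log ρ * (m + T)) := by
          refine mul_le_mul_of_nonneg_left ?_ hk0
          calc (m : ℝ) ≤ m + T := by linarith
            _ ≤ c / Real.log ρ * (m + T) := le_mul_of_one_le_left (by linarith) h3
      _ = S.card * c / Real.log ρ * (m + T) := by ring
  · set R : ℝ := ρ / 2 with hR
    have hRR : R₀ ≤ R := by rw [hR]; linarith
    have hR2 : 2 ≤ R := by rw [hR]; linarith
    have hlogR0 : 0 < Real.log R := Real.log_pos (by linarith)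
    have hlogR : Real.log ρ ≤ 2 * Real.log R := by
      have h1 : ρ ≤ R ^ 2 := by rw [hR]; nlinarith
      have h2 := Real.log_le_log (by linarith) h1
      rw [Real.log_pow] at h2
      push_cast at h2
      exact h2
    set M : V → ℝ := fun v => ∑ x ∈ (hf ρ).toFinset, |(inner ℝ v (π x v) : ℝ)| with hM
    have hM0 : ∀ v, 0 ≤ M v := fun v => Finset.sum_nonneg fun _ _ => abs_nonneg _
    -- the local inequality
    have hloc : ∀ ω ∈ Om π S, ∀ (s : S) (v : V),
        fn s v ω ^ 2 ≤ M v / (κ * Real.log R) * ‖ω‖ ^ 2 := by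
      intro ω hω s v
      obtain ⟨b, hb, hbω, hsum⟩ := Om_harm hS hω
      have hd : ∀ g x, (inner ℝ v (b (g * x)) : ℝ) - inner ℝ v (b g) = inner ℝ v (π g (b x)) := by
        intro g x
        rw [hb g x, inner_add_right]
        ring
      have h1 := hE (fun g => inner ℝ v (b g)) (fun g => by
        simp only [hd]
        rw [← inner_sum, ← map_sum, hsum, map_zero, inner_zero_right]) s s.2 R hRR
      simp only [Z1_one hb, inner_zero_right, sub_zero, hd] at h1
      have h2 : (inner ℝ v (b s) : ℝ) = fn s v ω := by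
        rw [hbω s]
        rfl
      rw [h2] at h1
      have h3 : ∑ g ∈ (hf R).toFinset, ∑ x ∈ S, (inner ℝ v (π g (b x)) : ℝ) ^ 2 ≤
          ‖ω‖ ^ 2 * M v := by
        rw [Finset.sum_comm]
        have h4 : ∀ x ∈ S, ∑ g ∈ (hf R).toFinset, (inner ℝ v (π g (b x)) : ℝ) ^ 2 ≤
            ‖b x‖ ^ 2 * M v := by
          intro x _
          have h5 : ∀ g, (inner ℝ v (π g (b x)) : ℝ) = inner ℝ (b x) ((π g)⁻¹ v) := by
            intro g
            rw [inv_apply, real_inner_comm]
          simp only [h5]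
          refine selberg _ (fun g => (π g)⁻¹ v) (b x) (hM0 v) fun g hg => ?_
          have h6 : ∀ h, (inner ℝ ((π g)⁻¹ v) ((π h)⁻¹ v) : ℝ) =
              inner ℝ v (π (g * h⁻¹) v) := by
            intro h
            rw [← inv_apply, map_mul, map_inv]
            rfl
          simp only [h6]
          have hinj : Set.InjOn (fun h : G => g * h⁻¹) ((hf R).toFinset : Set G) := by
            intro h _ h' _ hh
            simpa using hh
          rw [← Finset.sum_image (g := fun h : G => g * h⁻¹)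
            (f := fun x => |(inner ℝ v (π x v) : ℝ)|) hinj]
          refine Finset.sum_le_sum_of_subset_of_nonneg ?_ fun _ _ _ => abs_nonneg _
          intro y hy
          obtain ⟨h, hh, rfl⟩ := Finset.mem_image.1 hy
          rw [Set.Finite.mem_toFinset, Set.mem_ofPred_eq] at hg hh ⊢
          refine (hmul g h⁻¹).trans ?_
          rw [hinv]
          rw [hR] at hg hh
          linarith
        calc ∑ x ∈ S, ∑ g ∈ (hf R).toFinset, (inner ℝ v (π g (b x)) : ℝ) ^ 2
            ≤ ∑ x ∈ S, ‖b x‖ ^ 2 * M v := Finset.sum_le_sum h4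
          _ = ‖ω‖ ^ 2 * M v := by
              rw [← Finset.sum_mul, PiLp.norm_sq_eq_of_L2,
                ← Finset.sum_coe_sort S (fun x => ‖b x‖ ^ 2)]
              congr 1
              exact Finset.sum_congr rfl fun x _ => by rw [hbω x]
      have h4 := h1.trans h3
      rw [div_mul_eq_mul_div, le_div_iff₀ (by positivity)]
      calc fn s v ω ^ 2 * (κ * Real.log R) = κ * fn s v ω ^ 2 * Real.log R := by ring
        _ ≤ ‖ω‖ ^ 2 * M v := h4
        _ = M v * ‖ω‖ ^ 2 := by ring
    -- the orthonormal basis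
    set b := stdOrthonormalBasis ℝ (Om π S) with hb
    have horth : Orthonormal ℝ (fun j => ((b j : Om π S) : PiLp 2 (fun _ : S => V))) :=
      b.orthonormal.comp_linearIsometry (Om π S).subtypeₗᵢ
    have hspan : Submodule.span ℝ (Set.range fun j => ((b j : Om π S) :
        PiLp 2 (fun _ : S => V))) ≤ Om π S := by
      rw [Submodule.span_le]
      rintro _ ⟨j, rfl⟩
      exact (b j).2
    have hfb : ∀ (s : S) (v : V), ∑ j, fn s v (b j) ^ 2 ≤ M v / (κ * Real.log R) := by
      intro s v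
      rcases func_bound _ horth (fn s v) (fun x hx => hloc x (hspan hx) s v) with h | h
      · exact h
      · rw [h]
        exact div_nonneg (hM0 v) (by positivity)
    have h2m : (0 : ℝ) < 2 ^ m := by positivity
    -- the dimension is a sum
    have hdim : 2 ^ m * (D : ℝ) = ∑ ε : Fin m → Bool, ∑ s : S, ∑ j, fn s (vec ε) (b j) ^ 2 := by
      have h1 : (D : ℝ) = ∑ j, ∑ s : S, ‖((b j : Om π S) : PiLp 2 (fun _ : S => V)) s‖ ^ 2 := by
        have h2 : ∀ j, ∑ s : S, ‖((b j : Om π S) : PiLp 2 (fun _ : S => V)) s‖ ^ 2 = 1 := by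
          intro j
          rw [← PiLp.norm_sq_eq_of_L2, horth.1 j, one_pow]
        simp only [h2]
        simp [hD]
      rw [h1, Finset.mul_sum, Finset.sum_comm]
      have h3 : ∀ s : S, ∑ ε : Fin m → Bool, ∑ j, fn s (vec ε) (b j) ^ 2 =
          ∑ j, 2 ^ m * ‖((b j : Om π S) : PiLp 2 (fun _ : S => V)) s‖ ^ 2 := by
        intro s
        rw [Finset.sum_comm]
        exact Finset.sum_congr rfl fun j _ => avg_vec _
      simp only [h3]
      rw [Finset.sum_comm]
      exact Finset.sum_congr rfl fun j _ => by rw [Finset.mul_sum]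
    have hMsum : ∑ ε : Fin m → Bool, M (vec ε) ≤ 2 ^ m * (m + 2 * T) := by
      simp only [hM]
      rw [Finset.sum_comm]
      have h1 : (1 : G) ∈ (hf ρ).toFinset := by
        rw [Set.Finite.mem_toFinset, Set.mem_ofPred_eq, one_smul, dist_self]
        linarith
      rw [← Finset.add_sum_erase _ _ h1]
      have h2 : ∑ ε : Fin m → Bool, |(inner ℝ (vec ε) (π 1 (vec ε) : V) : ℝ)| = 2 ^ m * m := by
        rw [map_one]
        exact avg_self
      rw [h2, mul_add, Finset.mul_sum, Finset.mul_sum]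
      refine add_le_add le_rfl (Finset.sum_le_sum fun x _ => ?_)
      refine (avg_form (π x)).trans (mul_le_mul_of_nonneg_left ?_ h2m.le)
      have h3 : √(2 * (m : ℝ)) ≤ 2 * √(m : ℝ) := by
        rw [Real.sqrt_le_left (by positivity), mul_pow, Real.sq_sqrt hm0]
        linarith
      have h4 := abs_nonneg (LinearMap.trace ℝ V ((π x).toLinearEquiv : V →ₗ[ℝ] V))
      linarith
    have hmain : 2 ^ m * (D : ℝ) ≤ 2 ^ m * (S.card / (κ * Real.log R) * (m + 2 * T)) := by
      rw [hdim]
      calc ∑ ε : Fin m → Bool, ∑ s : S, ∑ j, fn s (vec ε) (b j) ^ 2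
          ≤ ∑ ε : Fin m → Bool, ∑ _s : S, M (vec ε) / (κ * Real.log R) :=
            Finset.sum_le_sum fun ε _ => Finset.sum_le_sum fun s _ => hfb s _
        _ = S.card / (κ * Real.log R) * ∑ ε : Fin m → Bool, M (vec ε) := by
            rw [Finset.mul_sum]
            refine Finset.sum_congr rfl fun ε _ => ?_
            rw [Finset.sum_const, nsmul_eq_mul, Finset.card_univ, Fintype.card_coe]
            ring
        _ ≤ S.card / (κ * Real.log R) * (2 ^ m * (m + 2 * T)) :=
            mul_le_mul_of_nonneg_left hMsum (by positivity)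
        _ = _ := by ring
    have h5 := le_of_mul_le_mul_left hmain h2m
    refine h5.trans ?_
    have h6 : 1 / (κ * Real.log R) * (m + 2 * T) ≤ c / Real.log ρ * (m + T) := by
      have h7 : 1 / (κ * Real.log R) ≤ 2 / κ / Real.log ρ := by
        rw [div_div, div_le_div_iff₀ (by positivity) (by positivity)]
        nlinarith
      calc 1 / (κ * Real.log R) * (m + 2 * T) ≤ 2 / κ / Real.log ρ * (2 * (m + T)) := by
            refine mul_le_mul h7 (by linarith) (by positivity) (by positivity)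
        _ = 4 / κ / Real.log ρ * (m + T) := by ring
        _ ≤ c / Real.log ρ * (m + T) := by
            refine mul_le_mul_of_nonneg_right ?_ (by positivity)
            exact div_le_div_of_nonneg_right hc1 hlogρ.le
    calc (S.card : ℝ) / (κ * Real.log R) * (m + 2 * T)
        = S.card * (1 / (κ * Real.log R) * (m + 2 * T)) := by ring
      _ ≤ S.card * (c / Real.log ρ * (m + T)) := mul_le_mul_of_nonneg_left h6 hk0
      _ = S.card * c / Real.log ρ * (m + T) := by ring

end Pool.Agent.Q103.BG
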